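import Mathlib
import Pool.Agent.V1153.XS.Thin

/-!
# Sums of exponentials of entire functions and varieties of log general type

Let `X` be the complement of the hypersurface `Q = 0` in the projective variety with the prime ideal
`I`. The following are equivalent, and they hold if `X` is of log general type, or pseudo Brody
hyperbolic, or pseudo Picard hyperbolic.

(1) `X` is not covered by images of nonconstant morphisms from the multiplicative group.

(2) For each `r` there is one proper closed subset of `X` which contains all nonconstant entire curves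
in `X` whose homogeneous coordinates are sums of `r` functions `a exp (b z)`, where `a` and `b` are
constants.

(3) For all `r` and `e` there is one proper closed subset of `X` which contains the images of all
nonconstant holomorphic maps from affine spaces `ℂ^k` to `X`, for all `k`, whose homogeneous
coordinates are sums of `r` functions `p exp h`, where `p` is a polynomial of degree at most `e` and
`h` is an arbitrary entire function on `ℂ^k`.
-/

set_option autoImplicit false

namespace Pool.Agent.Results.MP_160ed4_ag.ExponentialCurves

open MvPolynomial Pool.Agent.V1153.UG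
open Pool.Agent.TH143.GT (FunField)
open Pool.Agent.W602.GT (LogGeneralType)
open Pool.Agent.W603.GR (OffQ)

/-- The function `f` of `k` complex variables is a sum of `r` functions `p exp h`, where `p` is a
polynomial of total degree at most `e` and `h` is an entire function. -/
def ExpSum (k r e : ℕ) (f : (Fin k → ℂ) → ℂ) : Prop :=
  ∃ (p : Fin r → MvPolynomial (Fin k) ℂ) (h : Fin r → (Fin k → ℂ) → ℂ),
    (∀ i, (p i).totalDegree ≤ e ∧ Differentiable ℂ (h i)) ∧
    ∀ z, f z = ∑ i, eval z (p i) * Complex.exp (h i z)

/-- For each `r` one proper closed subset of `X` contains all nonconstant entire curves in `X` whose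
homogeneous coordinates are sums of `r` functions `a exp (b z)` with constants `a` and `b`. -/
def LinearExponents {n : ℕ} (I : Ideal (MvPolynomial (Fin (n + 1)) ℂ))
    (Q : MvPolynomial (Fin (n + 1)) ℂ) : Prop :=
  ∀ r : ℕ, ∃ G : MvPolynomial (Fin (n + 1)) ℂ, (∃ m, G.IsHomogeneous m) ∧ G ∉ I ∧
    ∀ f, Curve I Q f → (∀ j, ∃ a b : Fin r → ℂ, ∀ z, f z j = ∑ i, a i * Complex.exp (b i * z)) →
      ∀ z, eval (f z) G = 0

/-- For all `r` and `e` one proper closed subset of `X` contains the images of all maps `g` from affine
spaces `ℂ^k` to `X` with nonconstant quotients of the coordinates, where the homogeneous coordinates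
are sums of `r` functions `p exp h` with polynomials `p` of degree at most `e` and entire functions
`h`. -/
def EntireExponents {n : ℕ} (I : Ideal (MvPolynomial (Fin (n + 1)) ℂ))
    (Q : MvPolynomial (Fin (n + 1)) ℂ) : Prop :=
  ∀ r e : ℕ, ∃ G : MvPolynomial (Fin (n + 1)) ℂ, (∃ m, G.IsHomogeneous m) ∧ G ∉ I ∧
    ∀ (k : ℕ) (g : (Fin k → ℂ) → Fin (n + 1) → ℂ), (∀ j, ExpSum k r e fun z => g z j) →
      (∀ z, ∀ F ∈ I, (∃ m, F.IsHomogeneous m) → eval (g z) F = 0) → (∀ z, eval (g z) Q ≠ 0) →
      (∃ z w j l, g z j * g w l ≠ g z l * g w j) → ∀ z, eval (g z) G = 0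

/-- Let `X` be the complement of `Q = 0` in the projective variety with the prime ideal `I`. The
variety `X` is not covered by images of nonconstant morphisms from the multiplicative group if and
only if, for each `r`, one proper closed subset contains all nonconstant entire curves in `X` given by
sums of `r` functions `a exp (b z)`, and if and only if, for all `r` and `e`, one proper closed subset
contains all nonconstant maps from affine spaces to `X` given by sums of `r` functions `p exp h` with
polynomials `p` of degree at most `e` and arbitrary entire functions `h`. This is the case if `X` is of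
log general type, or pseudo Brody hyperbolic, or pseudo Picard hyperbolic. -/
theorem result {n : ℕ} (I : Ideal (MvPolynomial (Fin (n + 1)) ℂ)) (hI : I.IsPrime)
    (Q : MvPolynomial (Fin (n + 1)) ℂ) (q : ℕ) (hQ : Q.IsHomogeneous q) :
    List.TFAE [¬ GmRuled I Q, LinearExponents I Q, EntireExponents I Q] ∧
    (∀ (K : Type) [Field K] [Algebra ℂ K] (w : ℕ) (y : Fin (n + 1) → K),
      FunField I Q K w y → LogGeneralType ℂ K w (OffQ Q q y) → ¬ GmRuled I Q) ∧
    (PseudoBrody I Q → ¬ GmRuled I Q) ∧ (PseudoPicard I Q → ¬ GmRuled I Q) := by
  have h1 := Pool.Agent.V1153.XS.exp_tfae hI hQ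
  have h2 : Pool.Agent.V1153.XS.ExpThin I Q ↔ EntireExponents I Q := by
    constructor
    · intro h r e
      obtain ⟨G, h3, h4, h5⟩ := h r e
      exact ⟨G, h3, h4, fun k g hg hm ho hn => h5 k g ⟨hg, hm, ho, hn⟩⟩
    · intro h r e
      obtain ⟨G, h3, h4, h5⟩ := h r e
      exact ⟨G, h3, h4, fun k g hg => h5 k g hg.exp hg.mem hg.off hg.nc⟩
  rw [h2] at h1
  have h6 := six hI hQ
  exact ⟨h1, fun K _ _ w y hy hL => not_ruled_of_lgt hQ hy hL,
    fun h => (h6.out 2 0).1 h.thin, fun h => (h6.out 4 0).1 h.thin⟩

end Pool.Agent.Results.MP_160ed4_ag.ExponentialCurves
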