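import Mathlib
import Pool.Agent.V1153.GH.Gen
import Pool.Agent.V1153.GH.Cst
import Pool.Agent.V1153.UG.UnfC

/-!
# Picard theorems of bounded complexity for the strata of general divisors

Let `d_1, ..., d_q` be positive integers and `Z` a set of indices with
`d_1 + ... + d_q + #Z ≥ 2 n + 1`. For general forms `F_1, ..., F_q` of degrees `d_1, ..., d_q` in `n + 1`
variables let `X` be the stratum `F_i = 0 (i ∈ Z)`, `F_i ≠ 0 (i ∉ Z)` of the projective space. All
entire curves of complexity at most `(s, r, e, δ)` in `X` are constant, all holomorphic maps of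
complexity at most `(s, r, e, δ)` from the punctured disc to `X` extend to holomorphic maps from the
disc to the projective space, and all analytic arcs of complexity at most `(s, r, e, δ)` in `X` are
algebraic of bounded degree. For `Z = ∅` the varieties `X` are the complements of general divisors of
total degree at least `2 n + 1`.
-/

set_option autoImplicit false

namespace Pool.Agent.Results.MP_160ed4_ag.GeneralDivisorsPicard

open MvPolynomial Pool.Agent.V1153.UG
open Pool.Agent.W603.BP (Extends)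

/-- the indices of the coefficients of `q` forms of degrees `d i` in `n + 1` variables -/
abbrev Coeffs (n : ℕ) {q : ℕ} (d : Fin q → ℕ) : Type :=
  (i : Fin q) × {α : Fin (n + 1) →₀ ℕ // α.degree = d i}

/-- Let `∑ d i + #Z ≥ 2 n + 1`, and let `s`, `r`, `e`, `δ` be given. There are `N` and a nonzero
polynomial `Φ` in the coefficients of `q` forms of degrees `d i` in `n + 1` variables such that for all
forms `F i` of degree `d i` at whose coefficients `Φ` does not vanish the set `X` of the points of the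
projective space which lie on `F i = 0` exactly for `i ∈ Z` has the following properties: every entire
curve of complexity at most `(s, r, e, δ)` in `X` is constant, every holomorphic map of complexity at
most `(s, r, e, δ)` from the punctured disc to `X` extends to a holomorphic map from the disc to the
projective space, and any two coordinates of an analytic arc of complexity at most `(s, r, e, δ)` in `X`
satisfy an equation, homogeneous of degree at most `N`, with coefficients of degree at most `N` in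
`z`. -/
theorem result (n q : ℕ) (d : Fin q → ℕ) (Z : Finset (Fin q)) (hZ : 2 * n + 1 ≤ ∑ i, d i + Z.card)
    (s r e δ : ℕ) :
    ∃ (N : ℕ) (Φ : MvPolynomial (Coeffs n d) ℂ), Φ ≠ 0 ∧
      ∀ F : Fin q → MvPolynomial (Fin (n + 1)) ℂ, (∀ i, (F i).IsHomogeneous (d i)) →
        eval (fun x : Coeffs n d => coeff x.2.1 (F x.1)) Φ ≠ 0 →
        (∀ f : ℂ → Fin (n + 1) → ℂ, Differentiable ℂ f → (∀ z, f z ≠ 0) →
          (∀ z i, eval (f z) (F i) = 0 ↔ i ∈ Z) →
          Bdd Set.univ (∏ i ∈ Finset.univ \ Z, F i) s r e δ f → ∀ z, ∃ c : ℂ, f z = c • f 0) ∧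
        (∀ f : ℂ → Fin (n + 1) → ℂ, (∀ j, DifferentiableOn ℂ (fun z => f z j) pdisc) →
          (∀ z ∈ pdisc, f z ≠ 0) → (∀ z ∈ pdisc, ∀ i, eval (f z) (F i) = 0 ↔ i ∈ Z) →
          Bdd pdisc (∏ i ∈ Finset.univ \ Z, F i) s r e δ f → Extends f) ∧
        ∀ (U : Set ℂ) (h : ℂ → Fin (n + 1) → ℂ),
          Arc (Ideal.span {G | ∃ i ∈ Z, G = F i}) (∏ i ∈ Finset.univ \ Z, F i) s r e δ U h →
          ∀ j l, ∃ m ≤ N, AlgPair m U (fun z => h z j) fun z => h z l := by
  classical
  obtain ⟨N, hN⟩ := fam_none n (∑ i, d i) s r e δ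
  obtain ⟨Φ, hΦ0, hΦ⟩ := Pool.Agent.V1153.GH.general (n := n) d Z hZ N
  refine ⟨N, Φ, hΦ0, fun F hF hFΦ => ?_⟩
  have hd : ∀ i, d i ≤ ∑ i, d i := fun i =>
    Finset.single_le_sum (f := d) (fun _ _ => Nat.zero_le _) (Finset.mem_univ i)
  obtain ⟨h1, h2, h3⟩ := hN {G | ∃ i ∈ Z, G = F i} (∏ i ∈ Finset.univ \ Z, F i)
    ⟨by
      rintro _ ⟨i, -, rfl⟩
      exact ⟨d i, hd i, hF i⟩, ∑ i ∈ Finset.univ \ Z, d i,
      Finset.sum_le_sum_of_subset (Finset.sdiff_subset), IsHomogeneous.prod _ _ _ fun i _ => hF i⟩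
    (hΦ F hF hFΦ)
  have hmem : ∀ v : Fin (n + 1) → ℂ, (∀ i, eval v (F i) = 0 ↔ i ∈ Z) →
      ∀ G ∈ Ideal.span {G | ∃ i ∈ Z, G = F i}, eval v G = 0 := by
    intro v hv G hG
    have h2 : Ideal.span {G | ∃ i ∈ Z, G = F i} ≤ RingHom.ker (eval v) := by
      rw [Ideal.span_le]
      rintro _ ⟨i, hi, rfl⟩
      exact (hv i).2 hi
    exact h2 hG
  have hoff : ∀ v : Fin (n + 1) → ℂ, (∀ i, eval v (F i) = 0 ↔ i ∈ Z) →
      eval v (∏ i ∈ Finset.univ \ Z, F i) ≠ 0 := by
    intro v hv
    rw [map_prod]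
    exact Finset.prod_ne_zero_iff.2 fun i hi => fun h => (Finset.mem_sdiff.1 hi).2 ((hv i).1 h)
  refine ⟨fun f hf hne hst hb z => ?_, fun f hf hne hst hb => ?_, h3⟩
  · apply Pool.Agent.V1153.GH.prop_of hne
    intro hnc
    exact h1 f ⟨fun j => differentiable_pi.1 hf j, hne, fun z G hG _ => hmem _ (hst z) G hG,
      fun z => hoff _ (hst z), hnc⟩ hb
  · exact h2 f ⟨hf, hne, fun z hz G hG _ => hmem _ (hst z hz) G hG, fun z hz => hoff _ (hst z hz)⟩ hb

end Pool.Agent.Results.MP_160ed4_ag.GeneralDivisorsPicard
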