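import Pool.Agent.V1153.UG.Spe

/-!
# The special subsets, filtered by complexity

Let `X` be the complement of the hypersurface `Q = 0` in the closed subset of the projective space
with the ideal `I`; it may be reducible and singular, and all projective and all affine varieties are
of this form. We consider the following Zariski closed sets.

`SpGm N`: the closure of the union of the images of all nonconstant morphisms `G_m → X` given by
polynomials of degree at most `N`; it is contained in the special subset `Sp_sab(X)`.

`SpDFin r d`: the closure of the union of the nonconstant entire curves in `X` whose homogeneous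
coordinates satisfy linear differential equations of order at most `r` with polynomial coefficients
of degree at most `d`; it is a part of `Sp_h(X)`.

`SpH s r e d`: the closure of the union of the nonconstant entire curves in `X` of complexity at most
`(s, r, e, d)`: the homogeneous coordinates `h_j`, in some open set and up to a common factor, and
`1 / Q(h)`, are polynomials of degree at most `e` in each of the functions `z`, `1 / q(z)` and the
entries of the solutions `y_1, ..., y_s` of iterated systems of `r` linear differential equations,
and `q` is a polynomial of degree at most `d`.

`SpP s r e d`: the closure of the union of the images of the holomorphic maps from the punctured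
disc to `X` of complexity at most `(s, r, e, d)` with an essential singularity; it is a part of
`Sp_p(X)`.

`SpArc s r e d N`: the closure of the union of the analytic arcs in `X` of complexity at most
`(s, r, e, d)` which are not algebraic of degree and height at most `N`.

The first four filtrations are cofinal, each term of the fourth is contained in some `SpGm N`, and
so is `SpArc s r e d N` for some `N`. So the parts of `Sp_h(X)` and `Sp_p(X)` of bounded complexity
are contained in the part of `Sp_sab(X)` of some bounded degree.
-/

set_option autoImplicit false

namespace Pool.Agent.Results.MP_160ed4_ag.SpecialFiltrations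

open MvPolynomial Pool.Agent.V1153.UG
open Pool.Agent.TH143.GT (FunField)
open Pool.Agent.W602.GT (LogGeneralType)
open Pool.Agent.W603.GR (OffQ)

/-- The filtrations of the special subsets of `X` given by the morphisms from the multiplicative
group of bounded degree, by the entire curves which satisfy linear differential equations of bounded
order and degree, by the entire curves of bounded complexity, and by the maps from the punctured disc
of bounded complexity with an essential singularity are cofinal. The closure of the union of the
arcs of bounded complexity which are not algebraic of degree and height at most `N` is contained in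
`SpGm I Q N` for some `N`. If `X` is irreducible and of log general type, then all these sets
are different from `X`. -/
theorem result {n : ℕ} (I : Ideal (MvPolynomial (Fin (n + 1)) ℂ))
    (Q : MvPolynomial (Fin (n + 1)) ℂ) (q : ℕ) (hQ : Q.IsHomogeneous q) :
    (∀ r d : ℕ, ∃ N, SpDFin I Q r d ⊆ SpGm I Q N) ∧
    (∀ s r e d : ℕ, ∃ N, SpH I Q s r e d ⊆ SpGm I Q N) ∧
    (∀ s r e d : ℕ, ∃ N, SpP I Q s r e d ⊆ SpGm I Q N) ∧
    (∀ s r e d : ℕ, ∃ N, SpArc I Q s r e d N ⊆ SpGm I Q N) ∧
    (∀ N : ℕ, (∃ r d, SpGm I Q N ⊆ SpDFin I Q r d) ∧ (∃ s r e d, SpGm I Q N ⊆ SpH I Q s r e d) ∧
      ∃ s r e d, SpGm I Q N ⊆ SpP I Q s r e d) ∧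
    (I.IsPrime → ∀ (K : Type) [Field K] [Algebra ℂ K] (w : ℕ) (y : Fin (n + 1) → K),
      FunField I Q K w y → LogGeneralType ℂ K w (OffQ Q q y) →
        ∀ N, ∃ x ∈ cone I Q, x ∉ SpGm I Q N) := by
  obtain ⟨h1, h2, h3, h4, h5⟩ := filtrations I hQ
  refine ⟨h1, h2, h3, h4, h5, fun hI K _ _ w y hy hL N => ?_⟩
  exact proper_of_thin hI (fun h0 => hy.sub.off (hy.sub.mem Q h0))
    (thin_of_not_ruled hI hQ (not_ruled_of_lgt hQ hy hL)) N

end Pool.Agent.Results.MP_160ed4_ag.SpecialFiltrations
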