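import Pool.Agent.V1153.UR.Spec

/-!
# The restricted special subsets of a quasi-projective variety coincide

Let `X` be the complement of the hypersurface `Q = 0` in the closed subset of projective space given
by a set `E` of forms over the complex numbers (`X` may be reducible and singular), and let `G` be a
form; all degrees are at most `D`. The following are equivalent: the hypersurface `G = 0` contains

(1) `InGm`: the images of all nonconstant maps from the punctured line to `X`;

(2) `InFinite`: all nonconstant entire curves in `X` of finite complexity: these are the curves whose
homogeneous coordinates, and the inverse of the value of `Q` at them, in some open set and up to a
common factor, are polynomials in `z`, `1 / q(z)` and the entries of the solutions `y_1, ..., y_s` of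
iterated systems of linear differential equations, the coefficients of the system for `y_l` being
such polynomials in `z`, `1 / q(z)` and the entries of `y_1, ..., y_{l-1}`;

(3) `InDFin`: all nonconstant entire curves in `X` whose homogeneous coordinates satisfy linear
differential equations with polynomial coefficients;

(4) `InPicardFinite`: the images of all holomorphic maps of finite complexity from the punctured disc
to `X` with an essential singularity;

(5) `InExp`: the images of all nonconstant holomorphic maps from the spaces `ℂ^m` to `X` with
homogeneous coordinates which are sums of products of polynomials and exponentials of entire
functions;

(6) `InRuled`: all integral closed subvarieties of `X` which are covered by curves of the punctured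
line;

(7) `InPtd`: all points `x` of `X` such that there are infinitely many nonconstant maps from the
punctured line to `X` which send `1` to `x`;

(8) `InRec`: all but at most `B(s, r, e)` different points of each family of points of `X` given by
iterated recurrences of type `(s, r, e)`, where `B(s, r, e)` depends only on the type, on `D` and on
the dimension of the projective space.

So the Zariski closures of the unions of the sets in (1)-(7) coincide. The sets in (1) lie in the
special subset of `X` for semi-abelian varieties. The conditions are satisfied if `G = 0` contains the
special subset for entire curves (`InEntire`), or the one for maps from the punctured disc with an
essential singularity (`InPicard`), or the one for subvarieties which are not of log general type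
(`InNotLog`).
-/

set_option autoImplicit false

namespace Pool.Agent.Results.MP_160ed4_ag.SpecialSubsets

open MvPolynomial Pool.Agent.V1153.UR

/-- For all `n` and `D` there is a function `B` such that for all sets `E` of forms of degree at most
`D` in `n + 1` variables over `ℂ`, all forms `Q` of degree `q ≤ D` and all forms `G` of degree at most
`D`, for the complement `X` of `Q = 0` in the projective variety with the equations `E`, the following
are equivalent: `G = 0` contains all nonconstant curves of the punctured line in `X`; all nonconstant
entire curves in `X` of finite complexity; all nonconstant entire curves in `X` given by linear
differential equations; all maps of finite complexity from the punctured disc to `X` with an essential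
singularity; all nonconstant maps from the spaces `ℂ^m` to `X` given by sums of products of
polynomials and exponentials of entire functions; all integral closed subvarieties of `X` which are
covered by curves of the punctured line; all points with infinitely many pointed maps from the
punctured line; all but at most `B s r e` points of each family of points of `X` given by iterated
recurrences of type `(s, r, e)`. These conditions hold if `G = 0` contains all nonconstant entire
curves in `X`, or all maps from the punctured disc to `X` with an essential singularity, or all
integral closed subvarieties of `X` with more than one point which are not of log general type. -/
theorem result (n D : ℕ) : ∃ B : ℕ → ℕ → ℕ → ℕ, ∀ (E : Set (MvPolynomial (Fin (n + 1)) ℂ))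
    (Q G : MvPolynomial (Fin (n + 1)) ℂ) (q : ℕ), (∀ F ∈ E, ∃ a ≤ D, F.IsHomogeneous a) →
    q ≤ D → Q.IsHomogeneous q → (∃ a ≤ D, G.IsHomogeneous a) →
      List.TFAE [InGm E Q G, InFinite E Q G, InDFin E Q G, InPicardFinite E Q G, InExp E Q G,
        InRuled E Q G, InPtd E Q G, InRec E Q G B] ∧
      (InEntire E Q G ∨ InPicard E Q G ∨ InNotLog E Q q G → InGm E Q G) :=
  spec_tfae n D

end Pool.Agent.Results.MP_160ed4_ag.SpecialSubsets
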